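import Mathlib
import Pool.Agent.R9.CycleWave

/-!
# Open neighbourhood sum parameters of all 2-regular graphs
-/

namespace Pool.Agent.Results.MP_af65a2_co.TwoRegular

open Finset Pool.Agent.R9.CW

/-! ## Definitions -/

/-- The sum of the labels of the neighbours of `v`. -/
noncomputable def nbrSum {V : Type} (G : SimpleGraph V) (f : V → ℕ) (v : V) : ℕ :=
  ∑ᶠ u ∈ G.neighborSet v, f u

/-- `f` is a bijection from the vertex set onto `{1, …, n}`, `n` the number of vertices. -/
def IsLabeling {V : Type} (f : V → ℕ) : Prop :=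
  Set.BijOn f Set.univ (Set.Icc 1 (Nat.card V))

/-- The largest neighbourhood sum. -/
noncomputable def maxSum {V : Type} (G : SimpleGraph V) (f : V → ℕ) : ℕ :=
  sSup (Set.range (nbrSum G f))

/-- The smallest neighbourhood sum. -/
noncomputable def minSum {V : Type} (G : SimpleGraph V) (f : V → ℕ) : ℕ :=
  sInf (Set.range (nbrSum G f))

/-- `NS(G)`. -/
noncomputable def NS {V : Type} (G : SimpleGraph V) : ℕ :=
  sInf {x | ∃ f : V → ℕ, IsLabeling f ∧ x = maxSum G f}

/-- `NS⁻(G)`. -/
noncomputable def NSm {V : Type} (G : SimpleGraph V) : ℕ :=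
  sSup {x | ∃ f : V → ℕ, IsLabeling f ∧ x = minSum G f}

/-- `NS^sp(G)`. -/
noncomputable def NSsp {V : Type} (G : SimpleGraph V) : ℕ :=
  sInf {x | ∃ f : V → ℕ, IsLabeling f ∧ x = maxSum G f - minSum G f}

/-- The disjoint union of the cycles `C_{t i}`: the vertices of the `i`-th cycle are the residues
modulo `t i`, and `x` is adjacent to `x + 1` and `x - 1`. -/
def cyc {k : ℕ} (t : Fin k → ℕ) : SimpleGraph (Σ i : Fin k, ZMod (t i)) where
  Adj a b := a ≠ b ∧ (b = ⟨a.1, a.2 + 1⟩ ∨ a = ⟨b.1, b.2 + 1⟩)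
  symm := ⟨fun _ _ h => ⟨h.1.symm, h.2.symm⟩⟩
  loopless := ⟨fun _ h => h.1 rfl⟩

/-! ## Coordinates -/

section Coord

variable {k : ℕ} (t : Fin k → ℕ)

/-- The lengths as a function on all natural numbers. -/
def TT (i : ℕ) : ℕ := if h : i < k then t ⟨i, h⟩ else 0

/-- The lengths of the cycles of the distance two graph. -/
def ss (j : ℕ) : ℕ :=
  if TT t (j / 2) % 2 = 1 then (if j % 2 = 0 then TT t (j / 2) else 0) else TT t (j / 2) / 2

lemma TT_val (i : Fin k) : TT t i.1 = t i := by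
  unfold TT
  rw [dif_pos i.2]

/-- The number of the cycle of a vertex. -/
def jj (u : Σ i : Fin k, ZMod (t i)) : ℕ :=
  if t u.1 % 2 = 1 then 2 * u.1.1 else 2 * u.1.1 + u.2.val % 2

/-- The position of a vertex in its cycle. -/
def mm (u : Σ i : Fin k, ZMod (t i)) : ℕ :=
  if t u.1 % 2 = 1 then (if u.2.val % 2 = 0 then u.2.val / 2 else (u.2.val + t u.1) / 2)
  else u.2.val / 2

variable (ht : ∀ i, 3 ≤ t i)

include ht

lemma val_lt (i : Fin k) (x : ZMod (t i)) : x.val < t i := by
  have : NeZero (t i) := ⟨by have := ht i; omega⟩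
  exact ZMod.val_lt x

lemma jj_lt (u : Σ i : Fin k, ZMod (t i)) : jj t u < 2 * k := by
  unfold jj
  have := u.1.2
  split_ifs <;> omega

lemma jj_div (u : Σ i : Fin k, ZMod (t i)) : jj t u / 2 = u.1.1 := by
  unfold jj
  split_ifs <;> omega

lemma ss_jj (u : Σ i : Fin k, ZMod (t i)) :
    ss t (jj t u) = if t u.1 % 2 = 1 then t u.1 else t u.1 / 2 := by
  unfold ss
  rw [jj_div t ht, TT_val]
  split_ifs with h1 h2
  · rfl
  · exfalso
    apply h2
    unfold jj
    rw [if_pos h1]
    omega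
  · rfl

lemma mm_lt (u : Σ i : Fin k, ZMod (t i)) : mm t u < ss t (jj t u) := by
  rw [ss_jj t ht]
  have h := val_lt t ht u.1 u.2
  unfold mm
  split_ifs <;> omega

lemma coord_inj (u v : Σ i : Fin k, ZMod (t i)) (h1 : jj t u = jj t v) (h2 : mm t u = mm t v) :
    u = v := by
  have hi : u.1 = v.1 := by
    apply Fin.ext
    rw [← jj_div t ht u, ← jj_div t ht v, h1]
  obtain ⟨i, x⟩ := u
  obtain ⟨j, y⟩ := v
  simp only at hi
  subst hi
  have hx := val_lt t ht i x
  have hy := val_lt t ht i y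
  have : NeZero (t i) := ⟨by have := ht i; omega⟩
  have : x = y := by
    apply ZMod.val_injective (t i)
    unfold jj at h1
    unfold mm at h2
    simp only at h1 h2
    split_ifs at h1 h2 <;> omega
  rw [this]

lemma val_add_two (i : Fin k) (x : ZMod (t i)) : (x + 2).val = (x.val + 2) % t i := by
  have h3 := ht i
  have : NeZero (t i) := ⟨by omega⟩
  have h2 : (2 : ZMod (t i)).val = 2 := by
    have := ZMod.val_natCast_of_lt (n := t i) (a := 2) (by omega)
    simpa using this
  rw [ZMod.val_add, h2]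

lemma coord_next (i : Fin k) (x : ZMod (t i)) :
    jj t ⟨i, x + 2⟩ = jj t ⟨i, x⟩ ∧
    mm t ⟨i, x + 2⟩ = (mm t ⟨i, x⟩ + 1) % ss t (jj t ⟨i, x⟩) := by
  rw [ss_jj t ht]
  have hx := val_lt t ht i x
  have hv := val_add_two t ht i x
  have h3 := ht i
  unfold jj mm
  simp only
  rw [hv]
  generalize x.val = a at *
  by_cases hlt : a + 2 < t i
  · rw [Nat.mod_eq_of_lt hlt]
    refine ⟨by split_ifs <;> omega, ?_⟩
    by_cases ho : t i % 2 = 1
    · rw [if_pos ho, if_pos ho, if_pos ho]
      by_cases he : a % 2 = 0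
      · rw [if_pos (by omega), if_pos he, Nat.mod_eq_of_lt (by omega)]
        omega
      · rw [if_neg (by omega), if_neg he, Nat.mod_eq_of_lt (by omega)]
        omega
    · rw [if_neg ho, if_neg ho, if_neg ho, Nat.mod_eq_of_lt (by omega)]
      omega
  · have hmod : (a + 2) % t i = a + 2 - t i := by
      rw [Nat.mod_eq_sub_mod (by omega), Nat.mod_eq_of_lt (by omega)]
    rw [hmod]
    refine ⟨by split_ifs <;> omega, ?_⟩
    by_cases ho : t i % 2 = 1
    · rw [if_pos ho, if_pos ho, if_pos ho]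
      by_cases he : a % 2 = 0
      · rw [if_neg (by omega), if_pos he, Nat.mod_eq_of_lt (by omega)]
        omega
      · have ha : a = t i - 2 := by omega
        rw [if_pos (by omega), if_neg he]
        have : (a + t i) / 2 + 1 = t i := by omega
        rw [this, Nat.mod_self]
        omega
    · rw [if_neg ho, if_neg ho, if_neg ho]
      have : a / 2 + 1 = t i / 2 := by omega
      rw [this, Nat.mod_self]
      omega

lemma ss_ne_one : ∀ j < 2 * k, ss t j ≠ 1 := by
  intro j hj
  have h1 : j / 2 < k := by omega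
  have h2 : TT t (j / 2) = t ⟨j / 2, h1⟩ := by unfold TT; rw [dif_pos h1]
  have h3 := ht ⟨j / 2, h1⟩
  unfold ss
  rw [h2]
  split_ifs <;> omega

omit ht in
lemma sum_pairs (g : ℕ → ℕ) (m : ℕ) :
    ∑ j ∈ range (2 * m), g j = ∑ i ∈ range m, (g (2 * i) + g (2 * i + 1)) := by
  induction m with
  | zero => simp
  | succ m ih =>
    have : 2 * (m + 1) = 2 * m + 1 + 1 := by ring
    rw [this, sum_range_succ, sum_range_succ, sum_range_succ, ih]
    ring

omit ht in
lemma ss_even (i : ℕ) : ss t (2 * i) = if TT t i % 2 = 1 then TT t i else TT t i / 2 := by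
  unfold ss
  have h1 : 2 * i / 2 = i := by omega
  have h2 : 2 * i % 2 = 0 := by omega
  rw [h1, h2, if_pos rfl]

omit ht in
lemma ss_odd (i : ℕ) : ss t (2 * i + 1) = if TT t i % 2 = 1 then 0 else TT t i / 2 := by
  unfold ss
  have h1 : (2 * i + 1) / 2 = i := by omega
  have h2 : (2 * i + 1) % 2 = 1 := by omega
  rw [h1, h2]
  simp

/-- The number `o` of odd cycles in the distance two graph. -/
def oddNumber {k : ℕ} (t : Fin k → ℕ) : ℕ :=
  (Finset.univ.filter fun i => t i % 2 = 1).card + 2 * (Finset.univ.filter fun i => t i % 4 = 2).card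

omit ht in
lemma sum_ss : ∑ j ∈ range (2 * k), ss t j = ∑ i, t i := by
  rw [sum_pairs]
  have : ∑ i, t i = ∑ i : Fin k, TT t i.1 := sum_congr rfl fun i _ => (TT_val t i).symm
  rw [this, Fin.sum_univ_eq_sum_range (fun i => TT t i) k]
  refine sum_congr rfl fun i _ => ?_
  rw [ss_even, ss_odd]
  split_ifs <;> omega

omit ht in
lemma oo_ss : oo (ss t) (2 * k) = oddNumber t := by
  unfold oo oddNumber
  rw [card_filter, card_filter, card_filter, sum_pairs, mul_sum, ← sum_add_distrib]
  have : ∑ i : Fin k, ((if t i % 2 = 1 then 1 else 0) + 2 * (if t i % 4 = 2 then 1 else 0)) =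
      ∑ i : Fin k, (fun i => ((if TT t i % 2 = 1 then 1 else 0) +
        2 * (if TT t i % 4 = 2 then 1 else 0))) i.1 := by
    refine sum_congr rfl fun i _ => ?_
    simp only [TT_val]
  rw [this, Fin.sum_univ_eq_sum_range (fun i => ((if TT t i % 2 = 1 then 1 else 0) +
        2 * (if TT t i % 4 = 2 then 1 else 0))) k]
  refine sum_congr rfl fun i _ => ?_
  rw [ss_even, ss_odd]
  by_cases h1 : TT t i % 2 = 1
  · have h2 : ¬ TT t i % 4 = 2 := by omega
    simp [h1, h2]
  · by_cases h2 : TT t i % 4 = 2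
    · have h3 : TT t i / 2 % 2 = 1 := by omega
      simp [h1, h2, h3]
    · have h3 : ¬ TT t i / 2 % 2 = 1 := by omega
      simp [h1, h2, h3]

/-! ## The graph -/

lemma adj_iff (a b : Σ i : Fin k, ZMod (t i)) :
    (cyc t).Adj a b ↔ b = ⟨a.1, a.2 + 1⟩ ∨ b = ⟨a.1, a.2 - 1⟩ := by
  obtain ⟨i, x⟩ := a
  obtain ⟨j, y⟩ := b
  have h3 := ht i
  have : Fact (1 < t i) := ⟨by omega⟩
  have h10 : (1 : ZMod (t i)) ≠ 0 := one_ne_zero
  constructor
  · rintro ⟨-, h | h⟩
    · exact Or.inl h
    · right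
      obtain ⟨h1, h2⟩ := Sigma.mk.inj h
      subst h1
      have h2' : x = y + 1 := eq_of_heq h2
      rw [h2', add_sub_cancel_right]
  · rintro (h | h)
    · refine ⟨?_, Or.inl h⟩
      rw [h]
      intro h'
      have h2 : x = x + 1 := eq_of_heq (Sigma.mk.inj h').2
      exact h10 (by simpa using h2)
    · refine ⟨?_, Or.inr ?_⟩
      · rw [h]
        intro h'
        have h2 : x = x - 1 := eq_of_heq (Sigma.mk.inj h').2
        exact h10 (by simpa using h2.symm)
      · rw [h]
        simp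

lemma two_ne (i : Fin k) : (2 : ZMod (t i)) ≠ 0 := by
  intro h
  have h3 := ht i
  have : ((2 : ℕ) : ZMod (t i)) = 0 := by exact_mod_cast h
  rw [ZMod.natCast_eq_zero_iff] at this
  exact absurd (Nat.le_of_dvd (by norm_num) this) (by omega)

lemma nbrSum_eq (f : (Σ i : Fin k, ZMod (t i)) → ℕ) (i : Fin k) (x : ZMod (t i)) :
    nbrSum (cyc t) f ⟨i, x⟩ = f ⟨i, x - 1⟩ + f ⟨i, x + 1⟩ := by
  have h : (cyc t).neighborSet ⟨i, x⟩ = {⟨i, x - 1⟩, ⟨i, x + 1⟩} := by
    ext u
    rw [SimpleGraph.mem_neighborSet, adj_iff t ht, Set.mem_insert_iff, Set.mem_singleton_iff]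
    exact or_comm
  have hne : (⟨i, x - 1⟩ : Σ i : Fin k, ZMod (t i)) ≠ ⟨i, x + 1⟩ := by
    intro h'
    have h2 : x - 1 = x + 1 := eq_of_heq (Sigma.mk.inj h').2
    apply two_ne t ht i
    have h4 : x + 1 - (x - 1) = 0 := by rw [h2, sub_self]
    have h5 : x + 1 - (x - 1) = 2 := by ring
    rw [← h5, h4]
  unfold nbrSum
  rw [h, finsum_mem_pair hne]

lemma card_V : Nat.card (Σ i : Fin k, ZMod (t i)) = ∑ i, t i := by
  have : ∀ i, NeZero (t i) := fun i => ⟨by have := ht i; omega⟩
  rw [Nat.card_eq_fintype_card, Fintype.card_sigma]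
  exact sum_congr rfl fun i _ => ZMod.card _

/-! ## The upper bound -/

/-- The labelling with nearly equal sums. -/
lemma exists_good :
    ∃ f : (Σ i : Fin k, ZMod (t i)) → ℕ, IsLabeling f ∧ ∀ v,
      (∑ i, t i) + 1 ≤ nbrSum (cyc t) f v + max (oddNumber t) 1 ∧
      nbrSum (cyc t) f v ≤ (∑ i, t i) + 1 + max (oddNumber t) 1 := by
  classical
  have : ∀ i, NeZero (t i) := fun i => ⟨by have := ht i; omega⟩
  have htot := total (ss t) (2 * k)
  rw [sum_ss, oo_ss] at htot
  set f : (Σ i : Fin k, ZMod (t i)) → ℕ := fun u => (F (ss t) (2 * k) (jj t u) (mm t u)).toNat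
    with hf
  have hfe : ∀ u, (f u : ℤ) = F (ss t) (2 * k) (jj t u) (mm t u) := by
    intro u
    have := (F_range (ss t) (2 * k) (jj_lt t ht u) (mm_lt t ht u)).1
    rw [hf]
    simp only
    omega
  refine ⟨f, ?_, ?_⟩
  · have hinj : Function.Injective f := by
      intro u v huv
      have h1 : F (ss t) (2 * k) (jj t u) (mm t u) = F (ss t) (2 * k) (jj t v) (mm t v) := by
        rw [← hfe, ← hfe, huv]
      have h2 := F_inj (ss t) (2 * k) (jj_lt t ht u) (mm_lt t ht u) (jj_lt t ht v)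
        (mm_lt t ht v) h1
      exact coord_inj t ht u v h2.1 h2.2
    have hrange : ∀ u, f u ∈ Set.Icc 1 (Nat.card (Σ i : Fin k, ZMod (t i))) := by
      intro u
      have h1 := F_range (ss t) (2 * k) (jj_lt t ht u) (mm_lt t ht u)
      rw [← hfe, oo_ss] at h1
      rw [card_V t ht, Set.mem_Icc]
      omega
    refine ⟨fun u _ => hrange u, hinj.injOn, ?_⟩
    have h1 : Finset.univ.image f = Finset.Icc 1 (Nat.card (Σ i : Fin k, ZMod (t i))) := by
      apply Finset.eq_of_subset_of_card_le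
      · intro y hy
        rw [Finset.mem_image] at hy
        obtain ⟨x, -, rfl⟩ := hy
        exact Finset.mem_Icc.2 (hrange x)
      · rw [Finset.card_image_of_injective _ hinj, Nat.card_Icc, Finset.card_univ,
          Nat.card_eq_fintype_card]
        omega
    intro y hy
    have h2 : y ∈ Finset.univ.image f := by
      rw [h1]
      exact Finset.mem_Icc.2 hy
    rw [Finset.mem_image] at h2
    obtain ⟨x, -, hx⟩ := h2
    exact ⟨x, Set.mem_univ _, hx⟩
  · rintro ⟨i, x⟩
    rw [nbrSum_eq t ht]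
    have h1 := coord_next t ht i (x - 1)
    have h2 : x - 1 + 2 = x + 1 := by ring
    rw [h2] at h1
    have h3 := F_sum (ss t) (2 * k) (ss_ne_one t ht) (jj_lt t ht ⟨i, x - 1⟩)
      (mm_lt t ht ⟨i, x - 1⟩)
    rw [← h1.2, oo_ss] at h3
    have h4 := hfe ⟨i, x - 1⟩
    have h5 := hfe ⟨i, x + 1⟩
    rw [h1.1] at h5
    rw [← h4, ← h5] at h3
    generalize max (oddNumber t) 1 = e at h3 ⊢
    constructor <;> omega

/-! ## The lower bound -/

/-- A set of vertices that never contains both neighbours of a vertex is small. -/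
lemma indep (S : Finset (Σ i : Fin k, ZMod (t i)))
    (hS : ∀ i x, ¬ ((⟨i, x - 1⟩ : Σ i : Fin k, ZMod (t i)) ∈ S ∧
      (⟨i, x + 1⟩ : Σ i : Fin k, ZMod (t i)) ∈ S)) :
    2 * S.card + oddNumber t ≤ ∑ i, t i := by
  classical
  have key : ∀ j ∈ range (2 * k),
      2 * (S.filter fun u => jj t u = j).card + ss t j % 2 ≤ ss t j := by
    intro j _
    set A : Finset ℕ := (S.filter fun u => jj t u = j).image (mm t) with hA
    have hAc : A.card = (S.filter fun u => jj t u = j).card := by
      rw [hA]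
      apply card_image_of_injOn
      intro u hu v hv huv
      rw [mem_coe, mem_filter] at hu hv
      exact coord_inj t ht u v (hu.2.trans hv.2.symm) huv
    have hAr : A ⊆ range (ss t j) := by
      intro m hm
      rw [hA, mem_image] at hm
      obtain ⟨u, hu, rfl⟩ := hm
      rw [mem_filter] at hu
      rw [mem_range, ← hu.2]
      exact mm_lt t ht u
    set B : Finset ℕ := A.image fun m => (m + 1) % ss t j with hB
    have hBc : B.card = A.card := by
      rw [hB]
      apply card_image_of_injOn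
      intro a ha b hb hab
      have ha' := mem_range.1 (hAr ha)
      have hb' := mem_range.1 (hAr hb)
      simp only at hab
      by_cases h1 : a + 1 = ss t j
      · by_cases h2 : b + 1 = ss t j
        · omega
        · rw [h1, Nat.mod_self, Nat.mod_eq_of_lt (by omega)] at hab
          omega
      · by_cases h2 : b + 1 = ss t j
        · rw [h2, Nat.mod_self, Nat.mod_eq_of_lt (by omega)] at hab
          omega
        · rw [Nat.mod_eq_of_lt (by omega), Nat.mod_eq_of_lt (by omega)] at hab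
          omega
    have hBr : B ⊆ range (ss t j) := by
      intro m hm
      rw [hB, mem_image] at hm
      obtain ⟨a, ha, rfl⟩ := hm
      have ha' := mem_range.1 (hAr ha)
      rw [mem_range]
      exact Nat.mod_lt _ (by omega)
    have hdisj : Disjoint A B := by
      rw [disjoint_left]
      intro m hmA hmB
      rw [hB, mem_image] at hmB
      obtain ⟨a, ha, ham⟩ := hmB
      rw [hA, mem_image] at ha hmA
      obtain ⟨u, hu, rfl⟩ := ha
      obtain ⟨v, hv, hvm⟩ := hmA
      rw [mem_filter] at hu hv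
      obtain ⟨i, x⟩ := u
      have h1 := coord_next t ht i x
      have h2 : v = ⟨i, x + 2⟩ := by
        apply coord_inj t ht
        · rw [h1.1, hu.2, hv.2]
        · rw [h1.2, hvm, hu.2, ham]
      apply hS i (x + 1)
      have e1 : x + 1 - 1 = x := by ring
      have e2 : x + 1 + 1 = x + 2 := by ring
      rw [e1, e2]
      exact ⟨hu.1, h2 ▸ hv.1⟩
    have h3 := card_le_card (union_subset hAr hBr)
    rw [card_union_of_disjoint hdisj, card_range, hBc, hAc] at h3
    omega
  have h1 : S.card = ∑ j ∈ range (2 * k), (S.filter fun u => jj t u = j).card := by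
    apply card_eq_sum_card_fiberwise
    intro u _
    exact mem_coe.2 (mem_range.2 (jj_lt t ht u))
  have h2 : oddNumber t = ∑ j ∈ range (2 * k), ss t j % 2 := by
    rw [← oo_ss]
    unfold oo
    rw [card_filter]
    refine sum_congr rfl fun j _ => ?_
    split_ifs <;> omega
  rw [h1, h2, mul_sum, ← sum_add_distrib, ← sum_ss]
  exact sum_le_sum key

omit ht in
lemma two_mul_sum_Icc (M : ℕ) : 2 * ∑ x ∈ Finset.Icc 1 M, x = M * (M + 1) := by
  induction M with
  | zero => simp
  | succ M ih =>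
    rw [Finset.sum_Icc_succ_top (by omega), mul_add, ih]
    ring

lemma image_eq [Fintype (Σ i : Fin k, ZMod (t i))] (f : (Σ i : Fin k, ZMod (t i)) → ℕ)
    (hf : IsLabeling f) : Finset.univ.image f = Finset.Icc 1 (∑ i, t i) := by
  rw [← card_V t ht]
  ext y
  rw [mem_image, Finset.mem_Icc]
  constructor
  · rintro ⟨x, -, rfl⟩
    exact hf.mapsTo (Set.mem_univ x)
  · intro hy
    obtain ⟨x, -, hx⟩ := hf.surjOn (show y ∈ Set.Icc 1 _ from hy)
    exact ⟨x, mem_univ _, hx⟩

/-- Every labelling has a large neighbourhood sum. -/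
lemma lower (f : (Σ i : Fin k, ZMod (t i)) → ℕ) (hf : IsLabeling f) (h4 : ∃ i, t i ≠ 4) :
    ∃ v, (∑ i, t i) + 1 + max (oddNumber t) 1 ≤ nbrSum (cyc t) f v := by
  classical
  have hne : ∀ i, NeZero (t i) := fun i => ⟨by have := ht i; omega⟩
  set n := ∑ i, t i with hn
  have hinj : Function.Injective f := fun x y h => hf.injOn (Set.mem_univ _) (Set.mem_univ _) h
  have himg := image_eq t ht f hf
  rw [← hn] at himg
  by_cases ho : oddNumber t = 0
  · by_contra hcon
    push Not at hcon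
    rw [ho] at hcon
    have hle : ∀ v ∈ (Finset.univ : Finset (Σ i : Fin k, ZMod (t i))),
        nbrSum (cyc t) f v ≤ n + 1 := by
      intro v _
      have := hcon v
      simp only [zero_le, sup_of_le_right] at this
      omega
    have hsum1 : ∑ v, f v = ∑ x ∈ Finset.Icc 1 n, x := by
      rw [← himg, sum_image (fun x _ y _ h => hinj h)]
    have hsum2 : ∑ v, nbrSum (cyc t) f v = 2 * ∑ v, f v := by
      have h1 : ∀ v : Σ i : Fin k, ZMod (t i),
          nbrSum (cyc t) f v = f ⟨v.1, v.2 - 1⟩ + f ⟨v.1, v.2 + 1⟩ := fun v => nbrSum_eq t ht f v.1 v.2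
      simp only [h1]
      rw [sum_add_distrib, two_mul]
      congr 1
      · exact Fintype.sum_equiv (Equiv.sigmaCongrRight fun i => Equiv.subRight (1 : ZMod (t i)))
          _ _ (fun v => rfl)
      · exact Fintype.sum_equiv (Equiv.sigmaCongrRight fun i => Equiv.addRight (1 : ZMod (t i)))
          _ _ (fun v => rfl)
    have hsum3 : ∑ _v : Σ i : Fin k, ZMod (t i), (n + 1) = n * (n + 1) := by
      rw [sum_const, card_univ, ← Nat.card_eq_fintype_card, card_V t ht, smul_eq_mul]
    have heq : ∀ v ∈ (Finset.univ : Finset (Σ i : Fin k, ZMod (t i))),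
        nbrSum (cyc t) f v = n + 1 := by
      rw [← sum_eq_sum_iff_of_le hle, hsum3, hsum2, hsum1, two_mul_sum_Icc]
    obtain ⟨i, hi⟩ := h4
    have e1 := heq ⟨i, 1⟩ (mem_univ _)
    have e2 := heq ⟨i, 3⟩ (mem_univ _)
    rw [nbrSum_eq t ht] at e1 e2
    have a1 : (1 : ZMod (t i)) - 1 = 0 := by ring
    have a2 : (1 : ZMod (t i)) + 1 = 2 := by ring
    have a3 : (3 : ZMod (t i)) - 1 = 2 := by ring
    have a4 : (3 : ZMod (t i)) + 1 = 4 := by ring
    rw [a1, a2] at e1
    rw [a3, a4] at e2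
    have e3 : f ⟨i, 0⟩ = f ⟨i, 4⟩ := by omega
    have e4 : (0 : ZMod (t i)) = 4 := eq_of_heq (Sigma.mk.inj (hinj e3)).2
    have e5 : ((4 : ℕ) : ZMod (t i)) = 0 := by exact_mod_cast e4.symm
    rw [ZMod.natCast_eq_zero_iff] at e5
    have h3 := ht i
    have h5 := Nat.le_of_dvd (by norm_num) e5
    have h6 : t i = 3 := by omega
    rw [h6] at e5
    exact absurd e5 (by norm_num)
  · have htot := total (ss t) (2 * k)
    rw [sum_ss, oo_ss, ← hn] at htot
    set q := Q (ss t) (2 * k)
    set o := oddNumber t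
    set S : Finset (Σ i : Fin k, ZMod (t i)) := Finset.univ.filter fun u => q + o ≤ f u with hS
    have hSc : S.card = q + 1 := by
      rw [← card_image_of_injective S hinj]
      have : S.image f = Finset.Icc (q + o) n := by
        ext y
        rw [mem_image, Finset.mem_Icc]
        constructor
        · rintro ⟨x, hx, rfl⟩
          rw [hS, mem_filter] at hx
          have : f x ∈ Finset.univ.image f := mem_image_of_mem _ (mem_univ x)
          rw [himg, Finset.mem_Icc] at this
          exact ⟨hx.2, this.2⟩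
        · intro hy
          have : y ∈ Finset.univ.image f := by
            rw [himg, Finset.mem_Icc]
            omega
          rw [mem_image] at this
          obtain ⟨x, -, rfl⟩ := this
          refine ⟨x, ?_, rfl⟩
          rw [hS, mem_filter]
          exact ⟨mem_univ _, hy.1⟩
      rw [this, Nat.card_Icc]
      omega
    by_contra hcon
    push Not at hcon
    have h1 := indep t ht S ?_
    · rw [← hn, hSc] at h1
      omega
    · rintro i x ⟨h1, h2⟩
      rw [hS, mem_filter] at h1 h2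
      have h3 := hcon ⟨i, x⟩
      rw [nbrSum_eq t ht] at h3
      have h4 : f ⟨i, x - 1⟩ ≠ f ⟨i, x + 1⟩ := by
        intro h
        have h5 : x - 1 = x + 1 := eq_of_heq (Sigma.mk.inj (hinj h)).2
        apply two_ne t ht i
        have h6 : x + 1 - (x - 1) = 0 := by rw [h5, sub_self]
        have h7 : x + 1 - (x - 1) = 2 := by ring
        rw [← h7, h6]
      have h5 : max o 1 = o := by omega
      rw [h5] at h3
      omega

/-- The reflected labelling. -/
lemma reflect (f : (Σ i : Fin k, ZMod (t i)) → ℕ) (hf : IsLabeling f) :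
    IsLabeling (fun u => (∑ i, t i) + 1 - f u) := by
  unfold IsLabeling at hf ⊢
  rw [card_V t ht] at hf ⊢
  refine ⟨?_, ?_, ?_⟩
  · intro u _
    have := hf.mapsTo (Set.mem_univ u)
    rw [Set.mem_Icc] at this ⊢
    simp only
    omega
  · intro u _ v _ h
    have h1 := hf.mapsTo (Set.mem_univ u)
    have h2 := hf.mapsTo (Set.mem_univ v)
    rw [Set.mem_Icc] at h1 h2
    apply hf.injOn (Set.mem_univ _) (Set.mem_univ _)
    simp only at h
    omega
  · intro y hy
    rw [Set.mem_Icc] at hy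
    obtain ⟨u, -, hu⟩ := hf.surjOn (show (∑ i, t i) + 1 - y ∈ Set.Icc 1 (∑ i, t i) from by
      rw [Set.mem_Icc]; omega)
    refine ⟨u, Set.mem_univ _, ?_⟩
    simp only
    omega

lemma upper (f : (Σ i : Fin k, ZMod (t i)) → ℕ) (hf : IsLabeling f) (h4 : ∃ i, t i ≠ 4) :
    ∃ v, nbrSum (cyc t) f v + max (oddNumber t) 1 ≤ (∑ i, t i) + 1 := by
  obtain ⟨⟨i, x⟩, hv⟩ := lower t ht _ (reflect t ht f hf) h4
  refine ⟨⟨i, x⟩, ?_⟩
  rw [nbrSum_eq t ht] at hv ⊢
  unfold IsLabeling at hf
  rw [card_V t ht] at hf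
  have h1 := hf.mapsTo (Set.mem_univ (⟨i, x - 1⟩ : Σ i : Fin k, ZMod (t i)))
  have h2 := hf.mapsTo (Set.mem_univ (⟨i, x + 1⟩ : Σ i : Fin k, ZMod (t i)))
  rw [Set.mem_Icc] at h1 h2
  omega

end Coord

/-- **Main theorem.**  Let `G` be the disjoint union of cycles of lengths `t i ≥ 3`, not all equal
to `4`, with `n` vertices, let `o` be the number of odd cycle lengths plus twice the number of
cycle lengths that are `2` modulo `4`, and let `e = max o 1`.  Then `NS(G) = n + 1 + e`,
`NS⁻(G) = n + 1 - e` and `NS^sp(G) = 2 e`. -/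
theorem result {k : ℕ} (t : Fin k → ℕ) (ht : ∀ i, 3 ≤ t i) (h4 : ∃ i, t i ≠ 4) :
    NS (cyc t) = (∑ i, t i) + 1 + max (oddNumber t) 1 ∧
    NSm (cyc t) = (∑ i, t i) + 1 - max (oddNumber t) 1 ∧
    NSsp (cyc t) = 2 * max (oddNumber t) 1 := by
  have hnz : ∀ i, NeZero (t i) := fun i => ⟨by have := ht i; omega⟩
  set n := ∑ i, t i with hn
  set e := max (oddNumber t) 1 with he
  obtain ⟨f0, hf0, hgood⟩ := exists_good t ht
  rw [← hn, ← he] at hgood
  obtain ⟨i0, hi0⟩ := h4
  have v0 : Σ i : Fin k, ZMod (t i) := ⟨i0, 0⟩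
  have hbdd : ∀ f : (Σ i : Fin k, ZMod (t i)) → ℕ, BddAbove (Set.range (nbrSum (cyc t) f)) :=
    fun f => (Set.finite_range _).bddAbove
  have hmax : ∀ f : (Σ i : Fin k, ZMod (t i)) → ℕ, IsLabeling f → n + 1 + e ≤ maxSum (cyc t) f := by
    intro f hf
    obtain ⟨v, hv⟩ := lower t ht f hf ⟨i0, hi0⟩
    exact hv.trans (le_csSup (hbdd f) ⟨v, rfl⟩)
  have hmin : ∀ f : (Σ i : Fin k, ZMod (t i)) → ℕ, IsLabeling f → minSum (cyc t) f + e ≤ n + 1 := by
    intro f hf
    obtain ⟨v, hv⟩ := upper t ht f hf ⟨i0, hi0⟩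
    have h1 : minSum (cyc t) f ≤ nbrSum (cyc t) f v := Nat.sInf_le ⟨v, rfl⟩
    omega
  have hmax0 : maxSum (cyc t) f0 = n + 1 + e := by
    apply le_antisymm
    · have hr : (Set.range (nbrSum (cyc t) f0)).Nonempty := ⟨_, v0, rfl⟩
      refine csSup_le hr ?_
      rintro _ ⟨v, rfl⟩
      exact (hgood v).2
    · exact hmax f0 hf0
  have hmin0 : minSum (cyc t) f0 + e = n + 1 := by
    apply le_antisymm
    · exact hmin f0 hf0
    · obtain ⟨v, hv⟩ : minSum (cyc t) f0 ∈ Set.range (nbrSum (cyc t) f0) :=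
        Nat.sInf_mem ⟨_, v0, rfl⟩
      have := (hgood v).1
      omega
  refine ⟨?_, ?_, ?_⟩
  · apply le_antisymm
    · exact Nat.sInf_le ⟨f0, hf0, hmax0.symm⟩
    · have hr : {x | ∃ f : (Σ i : Fin k, ZMod (t i)) → ℕ, IsLabeling f ∧
          x = maxSum (cyc t) f}.Nonempty := ⟨_, f0, hf0, rfl⟩
      refine le_csInf hr ?_
      rintro x ⟨f, hf, rfl⟩
      exact hmax f hf
  · have h1 : ∀ x ∈ {x | ∃ f : (Σ i : Fin k, ZMod (t i)) → ℕ, IsLabeling f ∧
        x = minSum (cyc t) f}, x ≤ n + 1 - e := by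
      rintro x ⟨f, hf, rfl⟩
      have := hmin f hf
      omega
    have hr : {x | ∃ f : (Σ i : Fin k, ZMod (t i)) → ℕ, IsLabeling f ∧
        x = minSum (cyc t) f}.Nonempty := ⟨_, f0, hf0, rfl⟩
    apply le_antisymm
    · exact csSup_le hr h1
    · apply le_csSup ⟨_, h1⟩
      exact ⟨f0, hf0, by omega⟩
  · apply le_antisymm
    · exact Nat.sInf_le ⟨f0, hf0, by omega⟩
    · have hr : {x | ∃ f : (Σ i : Fin k, ZMod (t i)) → ℕ, IsLabeling f ∧
          x = maxSum (cyc t) f - minSum (cyc t) f}.Nonempty := ⟨_, f0, hf0, rfl⟩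
      refine le_csInf hr ?_
      rintro x ⟨f, hf, rfl⟩
      have h1 := hmax f hf
      have h2 := hmin f hf
      omega

end Pool.Agent.Results.MP_af65a2_co.TwoRegular
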